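import Pool.Agent.Y746.OJ.Stm
import Pool.Agent.H370R2.DirGood

set_option autoImplicit false

/-!
Project OJ (helper746), part JF (helper813): the formula for `J0` for general kernels.
-/

namespace Pool.Agent.Y813.OJ

open Finset Filter Topology MeasureTheory

noncomputable section

/-- the integral of the gaussian -/
def G0 : ℝ := ∫ x : ℝ, Real.exp (-x ^ 2 / 4)

theorem gint : Integrable (fun x : ℝ => Real.exp (-x ^ 2 / 4)) := by
  have h := integrable_exp_neg_mul_sq (b := 1/4) (by norm_num)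
  refine h.congr (Eventually.of_forall fun x => ?_)
  show Real.exp _ = Real.exp _
  congr 1; ring

theorem G0_nonneg : 0 ≤ G0 := integral_nonneg fun x => (Real.exp_pos _).le

theorem gint_t (t : ℝ) : Integrable (fun x : ℝ => Real.exp (-(x - t) ^ 2 / 4)) := gint.comp_sub_right t

theorem G0_t (t : ℝ) : ∫ x : ℝ, Real.exp (-(x - t) ^ 2 / 4) = G0 :=
  integral_sub_right_eq_self (fun x => Real.exp (-x^2/4)) t

theorem norm_LS (f : ℕ → ℂ) (hf : ∀ n, ‖f n‖ ≤ 1) (s : ℂ) (hs : s.re = 3 / 2) :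
    ‖LSeries f s‖ ≤ ∑' n : ℕ, 1 / (n : ℝ) ^ (3/2 : ℝ) := by
  have hsum : Summable (fun n : ℕ => 1 / (n:ℝ)^(3/2 : ℝ)) :=
    Real.summable_one_div_nat_rpow.mpr (by norm_num)
  refine tsum_of_norm_bounded hsum.hasSum fun n => ?_
  rw [LSeries.norm_term_eq, hs]
  split_ifs with h
  · positivity
  · gcongr
    exact hf n

theorem log_zeta_bd : ∃ A : ℝ, 0 ≤ A ∧ ∀ s : ℂ, s.re = 3 / 2 → |Real.log ‖riemannZeta s‖| ≤ A := by
  set B := ∑' n : ℕ, 1 / (n : ℝ) ^ (3/2 : ℝ) with hB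
  have hsum : Summable (fun n : ℕ => 1 / (n:ℝ)^(3/2 : ℝ)) :=
    Real.summable_one_div_nat_rpow.mpr (by norm_num)
  have hB1 : 1 ≤ B := by
    have := hsum.le_tsum 1 (fun n _ => by positivity)
    rw [hB]; simpa using this
  refine ⟨Real.log B, Real.log_nonneg hB1, fun s hs => ?_⟩
  have hs1 : 1 < s.re := by rw [hs]; norm_num
  have h1 : ‖riemannZeta s‖ ≤ B := by
    have := norm_LS (fun _ => 1) (fun n => by simp) s hs
    have h2 : LSeries 1 s = riemannZeta s := LSeries_one_eq_riemannZeta hs1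
    rw [← h2]
    exact this
  have h2 : ‖LSeries (fun n => ((ArithmeticFunction.moebius n : ℤ) : ℂ)) s‖ ≤ B := by
    refine norm_LS _ (fun n => ?_) s hs
    rw [Complex.norm_intCast]
    exact_mod_cast ArithmeticFunction.abs_moebius_le_one
  have h3 : LSeries (fun n => ((ArithmeticFunction.moebius n : ℤ) : ℂ)) s = (riemannZeta s)⁻¹ := by
    have h5 := ArithmeticFunction.LSeries_zeta_mul_Lseries_moebius hs1
    have h6 := ArithmeticFunction.LSeries_zeta_eq_riemannZeta hs1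
    have hz : riemannZeta s ≠ 0 := riemannZeta_ne_zero_of_one_lt_re hs1
    rw [h6] at h5
    field_simp
    rw [mul_comm]
    exact h5
  have hz : riemannZeta s ≠ 0 := riemannZeta_ne_zero_of_one_lt_re hs1
  have hz' : 0 < ‖riemannZeta s‖ := norm_pos_iff.mpr hz
  rw [h3, norm_inv] at h2
  rw [abs_le]
  constructor
  · rw [← Real.log_inv]
    apply Real.log_le_log (by positivity)
    rw [inv_le_comm₀ (by positivity) hz']
    exact h2
  · exact Real.log_le_log hz' h1


theorem fub (L : ℝ → ℝ → ℂ) (v : ℝ → ℂ) (hv : Continuous v) (hv0 : ∀ y, (v y).im = 0)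
    (U1 U2 : ℝ) (hU : U1 ≤ U2)
    (hL : IntegrableOn (fun p : ℝ × ℝ => L p.1 p.2) (Set.Icc (1 / 2 : ℝ) (3 / 2) ×ˢ Set.Icc U1 U2))
    (J a : ℝ → ℝ) (ha : Continuous a)
    (hJ : ∀ᵐ y : ℝ, y ∈ Set.Ioc U1 U2 →
      J y = a y - ∫ σ in (1/2 : ℝ)..(3/2), (σ - 1/2) * (L σ y).re) :
    IntervalIntegrable (fun σ : ℝ => ((σ - 1/2 : ℝ) : ℂ) * ∫ y in U1..U2, L σ y * v y) volume (1/2) (3/2) ∧
    ∫ y in U1..U2, J y * (v y).re = (∫ y in U1..U2, a y * (v y).re) -
      (∫ σ in (1/2 : ℝ)..(3/2), ((σ - 1/2 : ℝ) : ℂ) * ∫ y in U1..U2, L σ y * v y).re := by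
  have h12 : (1/2 : ℝ) ≤ 3/2 := by norm_num
  set S := Set.Ioc (1/2 : ℝ) (3/2) with hS
  set U := Set.Ioc U1 U2 with hUs
  have hG0 : IntegrableOn (fun p : ℝ × ℝ => L p.1 p.2 * (((p.1 - 1/2 : ℝ) : ℂ) * v p.2))
      (Set.Icc (1 / 2 : ℝ) (3 / 2) ×ˢ Set.Icc U1 U2) := by
    refine hL.mul_continuousOn ?_ (isCompact_Icc.prod isCompact_Icc)
    apply Continuous.continuousOn
    fun_prop
  have hG1 : IntegrableOn (fun p : ℝ × ℝ => L p.1 p.2 * (((p.1 - 1/2 : ℝ) : ℂ) * v p.2)) (S ×ˢ U) :=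
    hG0.mono_set (Set.prod_mono Set.Ioc_subset_Icc_self Set.Ioc_subset_Icc_self)
  have hG : Integrable (fun p : ℝ × ℝ => L p.1 p.2 * (((p.1 - 1/2 : ℝ) : ℂ) * v p.2))
      ((volume.restrict S).prod (volume.restrict U)) := by
    rw [Measure.prod_restrict]
    exact hG1
  have e1 : ∀ σ : ℝ, ∫ y in U, L σ y * (((σ - 1/2 : ℝ) : ℂ) * v y) =
      ((σ - 1/2 : ℝ) : ℂ) * ∫ y in U1..U2, L σ y * v y := by
    intro σ
    rw [intervalIntegral.integral_of_le hU, ← integral_const_mul]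
    refine integral_congr_ae (Eventually.of_forall fun y => ?_)
    show _ = _
    ring
  constructor
  · rw [intervalIntegrable_iff_integrableOn_Ioc_of_le h12]
    have := hG.integral_prod_left
    refine this.congr (Eventually.of_forall fun σ => ?_)
    exact e1 σ
  · have hsl : ∀ᵐ y ∂(volume.restrict U),
        Integrable (fun σ => L σ y * (((σ - 1/2 : ℝ) : ℂ) * v y)) (volume.restrict S) :=
      hG.prod_left_ae
    have hint : Integrable (fun y => ∫ σ in S, L σ y * (((σ - 1/2 : ℝ) : ℂ) * v y))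
        (volume.restrict U) := hG.integral_prod_right
    have hJ' : ∀ᵐ y ∂(volume.restrict U),
      J y = a y - ∫ σ in (1/2 : ℝ)..(3/2), (σ - 1/2) * (L σ y).re := by
      rw [ae_restrict_iff' measurableSet_Ioc]
      exact hJ
    have e2 : ∀ᵐ y ∂(volume.restrict U), J y * (v y).re =
        a y * (v y).re - (∫ σ in S, L σ y * (((σ - 1/2 : ℝ) : ℂ) * v y)).re := by
      filter_upwards [hJ', hsl] with y h1 h2
      rw [h1, sub_mul]
      congr 1
      have h3 : (∫ σ in S, L σ y * (((σ - 1/2 : ℝ) : ℂ) * v y)).re =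
          ∫ σ in S, (L σ y * (((σ - 1/2 : ℝ) : ℂ) * v y)).re :=
        (Complex.reCLM.integral_comp_comm h2).symm
      rw [h3, intervalIntegral.integral_of_le h12, ← integral_mul_const]
      refine integral_congr_ae (Eventually.of_forall fun σ => ?_)
      show _ = _
      have hvy : v y = ((v y).re : ℂ) := by
        apply Complex.ext
        · simp
        · simpa using hv0 y
      rw [hvy]
      simp only [Complex.mul_re, Complex.mul_im, Complex.ofReal_re, Complex.ofReal_im]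
      ring
    rw [intervalIntegral.integral_of_le hU, integral_congr_ae e2]
    rw [integral_sub]
    · congr 1
      · rw [intervalIntegral.integral_of_le hU]
      · have h4 : ∫ y in U, (∫ σ in S, L σ y * (((σ - 1/2 : ℝ) : ℂ) * v y)).re =
          (∫ y in U, ∫ σ in S, L σ y * (((σ - 1/2 : ℝ) : ℂ) * v y)).re :=
          Complex.reCLM.integral_comp_comm hint
        rw [h4]
        congr 1
        have h5 := integral_integral_swap (μ := volume.restrict S) (ν := volume.restrict U)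
          (f := fun σ y => L σ y * (((σ - 1/2 : ℝ) : ℂ) * v y)) hG
        rw [← h5, intervalIntegral.integral_of_le h12]
        exact integral_congr_ae (Eventually.of_forall fun σ => e1 σ)
    · have : IntervalIntegrable (fun y => a y * (v y).re) volume U1 U2 :=
        (ha.mul (Complex.continuous_re.comp hv)).intervalIntegrable _ _
      exact (intervalIntegrable_iff_integrableOn_Ioc_of_le hU).mp this
    · exact hint.re


/-- a term of the sum over the zeros -/
theorem zterm (g : ℝ → ℂ) (hg : Continuous g) (b : ℝ) (hb : b < 3 / 2) :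
    IntervalIntegrable (fun σ : ℝ => if σ < b then g σ else 0) volume (1/2) (3/2) ∧
    ∫ σ in (1/2 : ℝ)..(3/2), (if σ < b then g σ else 0) =
      if 1/2 < b then ∫ σ in (1/2 : ℝ)..b, g σ else 0 := by
  have h12 : (1/2 : ℝ) ≤ 3/2 := by norm_num
  have e0 : (fun σ : ℝ => if σ < b then g σ else 0) = (Set.Iio b).indicator g := by
    funext σ
    rw [Set.indicator_apply]
    rfl
  rw [e0]
  have hgi : IntegrableOn g (Set.Ioc (1/2 : ℝ) (3/2)) :=
    (hg.integrableOn_Icc).mono_set Set.Ioc_subset_Icc_self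
  constructor
  · rw [intervalIntegrable_iff_integrableOn_Ioc_of_le h12]
    exact hgi.indicator measurableSet_Iio
  · rw [intervalIntegral.integral_of_le h12, setIntegral_indicator measurableSet_Iio]
    have e1 : Set.Ioc (1/2 : ℝ) (3/2) ∩ Set.Iio b = Set.Ioo (1/2) b := by
      ext x
      simp only [Set.mem_inter_iff, Set.mem_Ioc, Set.mem_Iio, Set.mem_Ioo]
      constructor
      · rintro ⟨⟨h1, h2⟩, h3⟩; exact ⟨h1, h3⟩
      · rintro ⟨h1, h3⟩; exact ⟨⟨h1, by linarith⟩, h3⟩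
    rw [e1, ← integral_Ioc_eq_integral_Ioo]
    split_ifs with h
    · rw [intervalIntegral.integral_of_le h.le]
    · rw [Set.Ioc_eq_empty h]; simp

/-- substitution -/
theorem zsub (V : ℂ → ℂ) (hV : Continuous V) (b x : ℝ) :
    (∫ σ in (1/2 : ℝ)..b, ((σ - 1/2 : ℝ) : ℂ) * V ((x : ℂ) - ((b - σ : ℝ) : ℂ) * Complex.I)).re =
      ∫ w in (0 : ℝ)..(b - 1/2), ((b - 1/2) - w) * (V ((x : ℂ) - (w : ℂ) * Complex.I)).re := by
  have hc : Continuous (fun σ : ℝ => ((σ - 1/2 : ℝ) : ℂ) * V ((x : ℂ) - ((b - σ : ℝ) : ℂ) * Complex.I)) := by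
    fun_prop
  have h1 : (∫ σ in (1/2 : ℝ)..b, ((σ - 1/2 : ℝ) : ℂ) * V ((x : ℂ) - ((b - σ : ℝ) : ℂ) * Complex.I)).re =
      ∫ σ in (1/2 : ℝ)..b, (((σ - 1/2 : ℝ) : ℂ) * V ((x : ℂ) - ((b - σ : ℝ) : ℂ) * Complex.I)).re :=
    (Complex.reCLM.intervalIntegral_comp_comm (hc.intervalIntegrable _ _)).symm
  rw [h1]
  have h2 := intervalIntegral.integral_comp_sub_left (a := (1/2 : ℝ)) (b := b)
    (fun w : ℝ => ((b - 1/2) - w) * (V ((x : ℂ) - (w : ℂ) * Complex.I)).re) b
  rw [sub_self] at h2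
  rw [← h2]
  refine intervalIntegral.integral_congr fun σ _ => ?_
  show _ = _
  rw [Complex.re_ofReal_mul]
  congr 1
  ring


/-- the summable majorant -/
def bb (n : ℕ) : ℝ := ArithmeticFunction.vonMangoldt n / (n : ℝ) ^ (3/2 : ℝ)

theorem bb_nonneg (n : ℕ) : 0 ≤ bb n :=
  div_nonneg ArithmeticFunction.vonMangoldt_nonneg (by positivity)

theorem bb_summable : Summable bb := by
  have h := ArithmeticFunction.LSeriesSummable_vonMangoldt (s := ((3/2 : ℝ) : ℂ))
    (by simp; norm_num)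
  have h2 := h.norm
  refine h2.congr fun n => ?_
  rw [LSeries.norm_term_eq]
  unfold bb
  split_ifs with h0
  · subst h0; simp
  · rw [Complex.ofReal_re, Complex.norm_real, Real.norm_of_nonneg ArithmeticFunction.vonMangoldt_nonneg]

theorem ftc (l : ℝ) (hl : l ≠ 0) :
    ∫ σ in (1/2 : ℝ)..(3/2), (σ - 1/2) * Real.exp (-(σ * l)) =
      Real.exp (-(l / 2)) / l ^ 2 - Real.exp (-(3 / 2 * l)) * (1 / l + 1 / l ^ 2) := by
  have hd : ∀ x ∈ Set.uIcc (1/2 : ℝ) (3/2), HasDerivAt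
      (fun σ : ℝ => -(σ - 1/2) * Real.exp (-(σ * l)) / l - Real.exp (-(σ * l)) / l ^ 2)
      ((x - 1/2) * Real.exp (-(x * l))) x := by
    intro x _
    have h1 : HasDerivAt (fun σ : ℝ => Real.exp (-(σ * l))) (Real.exp (-(x * l)) * (-(1 * l))) x :=
      (((hasDerivAt_id x).mul_const l).neg).exp
    have h2 : HasDerivAt (fun σ : ℝ => -(σ - 1/2)) (-1) x := ((hasDerivAt_id x).sub_const _).neg
    have h3 := ((h2.mul h1).div_const l).sub (h1.div_const (l ^ 2))
    refine h3.congr_deriv ?_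
    field_simp
    ring
  rw [intervalIntegral.integral_eq_sub_of_hasDerivAt hd (by
    apply Continuous.intervalIntegrable; fun_prop)]
  have e1 : -(1 / 2 * l) = -(l / 2) := by ring
  rw [e1]
  field_simp
  ring

/-- the coefficients of the remainder -/
def ee (n : ℕ) : ℝ := ArithmeticFunction.vonMangoldt n / (n : ℝ) ^ (3/2 : ℝ) *
  (1 / Real.log n + 1 / Real.log n ^ 2)

theorem ee_bd (n : ℕ) : |ee n| ≤ 6 * bb n := by
  unfold ee
  rw [abs_mul, ← bb, abs_of_nonneg (bb_nonneg n), mul_comm]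
  rcases Nat.lt_or_ge n 2 with h | h
  · have : bb n = 0 := by
      unfold bb
      have : ArithmeticFunction.vonMangoldt n = 0 := by
        interval_cases n <;> simp
      rw [this, zero_div]
    rw [this]; simp
  · refine mul_le_mul_of_nonneg_right ?_ (bb_nonneg n)
    have h2 : (1/2 : ℝ) ≤ Real.log n := by
      have h3 : Real.log 2 ≤ Real.log n := Real.log_le_log (by norm_num) (by exact_mod_cast h)
      have := Real.log_two_gt_d9
      linarith
    have hp : 0 < Real.log n := by linarith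
    have h4 : 1 / Real.log n ≤ 2 := by
      rw [div_le_iff₀ hp]; linarith
    have h5 : 1 / Real.log n ^ 2 ≤ 4 := by
      rw [div_le_iff₀ (by positivity)]; nlinarith
    rw [abs_of_nonneg (by positivity)]
    linarith

/-- the terms -/
theorem term_eq (n : ℕ) (t : ℝ) (w : ℂ) :
    ∫ σ in (1/2 : ℝ)..(3/2), ((σ - 1/2 : ℝ) : ℂ) *
      ((ArithmeticFunction.vonMangoldt n : ℂ) * (n : ℂ) ^ (-((σ : ℂ) + (t : ℂ) * Complex.I)) * w) =
    ((ArithmeticFunction.vonMangoldt n / (Real.sqrt n * Real.log n ^ 2) : ℝ) : ℂ) *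
      ((n : ℂ) ^ (-((t : ℂ) * Complex.I)) * w) -
    ((ee n : ℝ) : ℂ) * ((n : ℂ) ^ (-((t : ℂ) * Complex.I)) * w) := by
  rcases Nat.lt_or_ge n 2 with h | h
  · have h0 : ArithmeticFunction.vonMangoldt n = 0 := by
      interval_cases n <;> simp
    unfold ee
    rw [h0]
    simp
  · have hn0 : (n : ℂ) ≠ 0 := by
      have : n ≠ 0 := by omega
      exact_mod_cast this
    have hnp : (0 : ℝ) < n := by
      have : 0 < n := by omega
      exact_mod_cast this
    have hl : 0 < Real.log n := Real.log_pos (by exact_mod_cast (by omega : 1 < n))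
    have e1 : ∀ σ : ℝ, ((σ - 1/2 : ℝ) : ℂ) *
      ((ArithmeticFunction.vonMangoldt n : ℂ) * (n : ℂ) ^ (-((σ : ℂ) + (t : ℂ) * Complex.I)) * w) =
      (((σ - 1/2) * Real.exp (-(σ * Real.log n)) : ℝ) : ℂ) *
        ((ArithmeticFunction.vonMangoldt n : ℂ) * ((n : ℂ) ^ (-((t : ℂ) * Complex.I)) * w)) := by
      intro σ
      have : (n : ℂ) ^ (-((σ : ℂ) + (t : ℂ) * Complex.I)) =
          ((Real.exp (-(σ * Real.log n)) : ℝ) : ℂ) * (n : ℂ) ^ (-((t : ℂ) * Complex.I)) := by
        rw [neg_add, Complex.cpow_add _ _ hn0]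
        congr 1
        rw [show Real.exp (-(σ * Real.log n)) = (n : ℝ) ^ (-σ) by
          rw [Real.rpow_def_of_pos hnp]; congr 1; ring]
        rw [Complex.ofReal_cpow hnp.le]
        simp
      rw [this]
      push_cast
      ring
    simp_rw [e1]
    rw [intervalIntegral.integral_mul_const]
    have e2 : ∫ σ in (1/2 : ℝ)..(3/2), (((σ - 1/2) * Real.exp (-(σ * Real.log n)) : ℝ) : ℂ) =
      ((∫ σ in (1/2 : ℝ)..(3/2), (σ - 1/2) * Real.exp (-(σ * Real.log n)) : ℝ) : ℂ) :=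
      intervalIntegral.integral_ofReal
    rw [e2, ftc _ hl.ne']
    have e3 : Real.exp (-(Real.log n / 2)) = 1 / Real.sqrt n := by
      rw [Real.exp_neg, one_div]
      congr 1
      rw [Real.sqrt_eq_rpow, Real.rpow_def_of_pos hnp]
      congr 1; ring
    have e4 : Real.exp (-(3 / 2 * Real.log n)) = 1 / (n : ℝ) ^ (3/2 : ℝ) := by
      rw [Real.exp_neg, one_div]
      congr 1
      rw [Real.rpow_def_of_pos hnp]
      congr 1; ring
    rw [e3, e4]
    unfold ee
    have hs : 0 < Real.sqrt n := Real.sqrt_pos.mpr hnp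
    have hsC : ((Real.sqrt n : ℝ) : ℂ) ≠ 0 := by exact_mod_cast hs.ne'
    have hlC : ((Real.log n : ℝ) : ℂ) ≠ 0 := by exact_mod_cast hl.ne'
    have hrC : (((n : ℝ) ^ (3/2 : ℝ) : ℝ) : ℂ) ≠ 0 := by
      exact_mod_cast (Real.rpow_pos_of_pos hnp _).ne'
    push_cast
    field_simp


theorem Dpart (w : ℕ → ℂ) (t K N : ℝ) (hK : 0 ≤ K)
    (hw : ∀ n : ℕ, 1 ≤ n → ‖w n‖ ≤ K / n) (hw2 : ∀ n : ℕ, ‖w n‖ ≤ N) :
    IntervalIntegrable (fun σ : ℝ => ((σ - 1/2 : ℝ) : ℂ) *
      ∑' n : ℕ, (ArithmeticFunction.vonMangoldt n : ℂ) * (n : ℂ) ^ (-((σ : ℂ) + (t : ℂ) * Complex.I)) *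
        w n) volume (1/2) (3/2) ∧
    |(∫ σ in (1/2 : ℝ)..(3/2), ((σ - 1/2 : ℝ) : ℂ) *
      ∑' n : ℕ, (ArithmeticFunction.vonMangoldt n : ℂ) * (n : ℂ) ^ (-((σ : ℂ) + (t : ℂ) * Complex.I)) *
        w n).re -
      ∑' n : ℕ, ArithmeticFunction.vonMangoldt n / (Real.sqrt n * Real.log n ^ 2) *
        ((n : ℂ) ^ (-((t : ℂ) * Complex.I)) * w n).re| ≤ 6 * N * ∑' n, bb n := by
  have hN : 0 ≤ N := (norm_nonneg _).trans (hw2 0)
  have h12 : (1/2 : ℝ) ≤ 3/2 := by norm_num
  set f : ℕ → ℝ → ℂ := fun n σ => (ArithmeticFunction.vonMangoldt n : ℂ) *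
    (n : ℂ) ^ (-((σ : ℂ) + (t : ℂ) * Complex.I)) * w n with hf
  have hfb : ∀ (n : ℕ) (σ : ℝ), 1/2 ≤ σ → ‖f n σ‖ ≤ K * bb n := by
    intro n σ hσ
    rcases Nat.eq_zero_or_pos n with h0 | h0
    · subst h0
      simp only [hf]
      simp [bb]
    · have hnp : (0 : ℝ) < n := by exact_mod_cast h0
      have hn1 : (1 : ℝ) ≤ n := by exact_mod_cast h0
      simp only [hf]
      rw [norm_mul, norm_mul, Complex.norm_real,
        Real.norm_of_nonneg ArithmeticFunction.vonMangoldt_nonneg,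
        Complex.norm_natCast_cpow_of_pos h0]
      have e1 : (-((σ : ℂ) + (t : ℂ) * Complex.I)).re = -σ := by simp
      rw [e1]
      have e2 : (n : ℝ) ^ (-σ) ≤ (n : ℝ) ^ (-(1/2) : ℝ) :=
        Real.rpow_le_rpow_of_exponent_le hn1 (by linarith)
      have e3 := hw n h0
      have e4 : (n : ℝ) ^ (3/2 : ℝ) = (n : ℝ) ^ (1/2 : ℝ) * n := by
        rw [show (3/2 : ℝ) = 1/2 + 1 by norm_num, Real.rpow_add hnp, Real.rpow_one]
      have e5 : K * bb n = ArithmeticFunction.vonMangoldt n * (n : ℝ) ^ (-(1/2) : ℝ) * (K / n) := by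
        unfold bb
        rw [e4, Real.rpow_neg hnp.le]
        field_simp
      rw [e5]
      have := @ArithmeticFunction.vonMangoldt_nonneg n
      have hr : 0 ≤ (n : ℝ) ^ (-σ) := by positivity
      gcongr
  have hfc : ∀ n, Continuous (f n) := by
    intro n
    rcases Nat.eq_zero_or_pos n with h0 | h0
    · subst h0
      simp only [hf]
      simp only [CharP.cast_eq_zero, ArithmeticFunction.map_zero, Complex.ofReal_zero, zero_mul]
      exact continuous_const
    · have hn : (n : ℂ) ≠ 0 := by exact_mod_cast h0.ne'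
      simp only [hf]
      refine ((continuous_const).mul ?_).mul continuous_const
      refine Continuous.const_cpow ?_ (Or.inl hn)
      fun_prop
  have hsumK : Summable fun n => K * bb n := bb_summable.mul_left K
  have hcont : ContinuousOn (fun σ : ℝ => ∑' n, f n σ) (Set.Icc (1/2 : ℝ) (3/2)) :=
    continuousOn_tsum (fun n => (hfc n).continuousOn) hsumK fun n σ hσ => hfb n σ hσ.1
  constructor
  · apply ContinuousOn.intervalIntegrable
    rw [Set.uIcc_of_le h12]
    exact ContinuousOn.mul (by fun_prop) hcont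
  · have hX := intervalIntegral.hasSum_integral_of_dominated_convergence (μ := volume)
      (a := (1/2 : ℝ)) (b := 3/2) (F := fun n σ => ((σ - 1/2 : ℝ) : ℂ) * f n σ)
      (f := fun σ => ((σ - 1/2 : ℝ) : ℂ) * ∑' n, f n σ)
      (fun n _ => K * bb n)
      (fun n => ((by fun_prop : Continuous fun σ : ℝ => ((σ - 1/2 : ℝ) : ℂ)).mul
        (hfc n)).aestronglyMeasurable)
      (fun n => Eventually.of_forall fun σ hσ => by
        rw [Set.uIoc_of_le h12] at hσ
        rw [norm_mul, Complex.norm_real, Real.norm_eq_abs, abs_of_nonneg (by linarith [hσ.1])]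
        have := hfb n σ hσ.1.le
        have h2 : σ - 1/2 ≤ 1 := by linarith [hσ.2]
        calc (σ - 1/2) * ‖f n σ‖ ≤ 1 * ‖f n σ‖ := by gcongr
          _ ≤ K * bb n := by rw [one_mul]; exact this)
      (Eventually.of_forall fun σ _ => hsumK)
      (by simp)
      (Eventually.of_forall fun σ hσ => by
        rw [Set.uIoc_of_le h12] at hσ
        have : Summable fun n => f n σ := Summable.of_norm_bounded hsumK fun n => hfb n σ hσ.1.le
        exact this.hasSum.mul_left _)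
    set c1 : ℕ → ℂ := fun n =>
      ((ArithmeticFunction.vonMangoldt n / (Real.sqrt n * Real.log n ^ 2) : ℝ) : ℂ) *
        ((n : ℂ) ^ (-((t : ℂ) * Complex.I)) * w n) with hc1
    set c2 : ℕ → ℂ := fun n => ((ee n : ℝ) : ℂ) * ((n : ℂ) ^ (-((t : ℂ) * Complex.I)) * w n) with hc2
    have hX2 : HasSum (fun n => c1 n - c2 n) (∫ σ in (1/2 : ℝ)..(3/2), ((σ - 1/2 : ℝ) : ℂ) *
        ∑' n, f n σ) := by
      refine hX.congr_fun ?_
      intro n
      exact (term_eq n t (w n)).symm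
    have hc2b : ∀ n, ‖c2 n‖ ≤ 6 * N * bb n := by
      intro n
      rcases Nat.eq_zero_or_pos n with h0 | h0
      · subst h0
        simp [hc2, ee, bb]
      · simp only [hc2]
        rw [norm_mul, norm_mul, Complex.norm_real, Real.norm_eq_abs,
          Complex.norm_natCast_cpow_of_pos h0]
        have e1 : (-((t : ℂ) * Complex.I)).re = 0 := by simp
        rw [e1, Real.rpow_zero, one_mul]
        calc |ee n| * ‖w n‖ ≤ (6 * bb n) * N :=
              mul_le_mul (ee_bd n) (hw2 n) (norm_nonneg _) (by have := bb_nonneg n; linarith)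
          _ = 6 * N * bb n := by ring
    have hs6 : Summable fun n => 6 * N * bb n := bb_summable.mul_left _
    have hs2 : Summable c2 := Summable.of_norm_bounded hs6 hc2b
    have hs1 : Summable c1 := by
      have := hX2.summable.add hs2
      refine this.congr fun n => ?_
      ring
    have hXe : (∫ σ in (1/2 : ℝ)..(3/2), ((σ - 1/2 : ℝ) : ℂ) * ∑' n, f n σ) =
        ∑' n, c1 n - ∑' n, c2 n := by
      rw [← hX2.tsum_eq, hs1.tsum_sub hs2]
    have e7 : ∑' n : ℕ, ArithmeticFunction.vonMangoldt n / (Real.sqrt n * Real.log n ^ 2) *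
        ((n : ℂ) ^ (-((t : ℂ) * Complex.I)) * w n).re = (∑' n, c1 n).re := by
      rw [Complex.re_tsum hs1]
      refine tsum_congr fun n => ?_
      simp only [hc1]
      rw [Complex.re_ofReal_mul]
    rw [hXe, e7, Complex.sub_re]
    have e8 : ‖∑' n, c2 n‖ ≤ 6 * N * ∑' n, bb n := by
      rw [← tsum_mul_left]
      exact tsum_of_norm_bounded hs6.hasSum hc2b
    have e9 := Complex.abs_re_le_norm (∑' n, c2 n)
    have e10 : (∑' n, c1 n).re - (∑' n, c2 n).re - (∑' n, c1 n).re = -(∑' n, c2 n).re := by ring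
    rw [e10, abs_neg]
    exact e9.trans e8

open H370 (zset mult NN Zf zz)
open Pool.Agent.Y746.OM Pool.Agent.Y746.OJ

theorem VH_bd {V : ℂ → ℂ} {M0 M : ℝ} (hV : KerOK V M0 M) (ξ : ℝ) : ‖VH V ξ‖ ≤ M0 * G0 := by
  unfold VH G0
  rw [← integral_const_mul]
  refine norm_integral_le_of_norm_le (gint.const_mul M0) (Eventually.of_forall fun x => ?_)
  rw [norm_mul]
  have : ‖Complex.exp (-(ξ : ℂ) * (x : ℂ) * Complex.I)‖ = 1 := by
    rw [show -(ξ : ℂ) * (x : ℂ) * Complex.I = ((-ξ * x : ℝ) : ℂ) * Complex.I by push_cast; ring]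
    exact Complex.norm_exp_ofReal_mul_I _
  rw [this, mul_one]
  exact hV.2.2.1 x

theorem aint_bd {V : ℂ → ℂ} {M0 M : ℝ} (hV : KerOK V M0 M) (a : ℝ → ℝ)
    (A : ℝ) (hA : 0 ≤ A) (hab : ∀ y, |a y| ≤ A) (U1 U2 t : ℝ) (hU : U1 ≤ U2) :
    |∫ y in U1..U2, a y * (V ((y - t : ℝ) : ℂ)).re| ≤ A * (M0 * G0) := by
  have hM0 : 0 ≤ M0 := by
    have := (norm_nonneg _).trans (hV.2.2.1 0)
    simpa using this
  rw [intervalIntegral.integral_of_le hU, ← G0_t t, ← integral_const_mul, ← integral_const_mul,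
    ← Real.norm_eq_abs]
  have h1 : ‖∫ y in Set.Ioc U1 U2, a y * (V ((y - t : ℝ) : ℂ)).re‖ ≤
      ∫ y in Set.Ioc U1 U2, A * (M0 * Real.exp (-(y - t) ^ 2 / 4)) := by
    refine norm_integral_le_of_norm_le (((gint_t t).const_mul M0).const_mul A).integrableOn
      (Eventually.of_forall fun y => ?_)
    rw [norm_mul, Real.norm_eq_abs, Real.norm_eq_abs]
    have h2 := hV.2.2.1 (y - t)
    have h3 := (Complex.abs_re_le_norm (V ((y - t : ℝ) : ℂ))).trans h2
    exact mul_le_mul (hab y) h3 (abs_nonneg _) hA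
  refine h1.trans (setIntegral_le_integral (((gint_t t).const_mul M0).const_mul A) ?_)
  exact Eventually.of_forall fun y => by
    have : 0 ≤ Real.exp (-(y - t) ^ 2 / 4) := (Real.exp_pos _).le
    show 0 ≤ A * (M0 * Real.exp (-(y - t) ^ 2 / 4))
    positivity

theorem a_cont : Continuous (fun y : ℝ => Real.log ‖riemannZeta (pt (3 / 2) y)‖) := by
  rw [continuous_iff_continuousAt]
  intro y
  have hre : (pt (3 / 2) y).re = 3 / 2 := by simp [pt]
  have hne : riemannZeta (pt (3 / 2) y) ≠ 0 :=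
    riemannZeta_ne_zero_of_one_lt_re (by rw [hre]; norm_num)
  have hne1 : pt (3 / 2) y ≠ 1 := by
    intro h
    rw [h] at hre
    norm_num at hre
  have h1 : ContinuousAt riemannZeta (pt (3 / 2) y) := (differentiableAt_riemannZeta hne1).continuousAt
  have h2 : Continuous (fun y : ℝ => pt (3 / 2) y) := by unfold pt; fun_prop
  have h3 : ContinuousAt (fun y : ℝ => riemannZeta (pt (3 / 2) y)) y :=
    ContinuousAt.comp (f := fun y : ℝ => pt (3 / 2) y) h1 h2.continuousAt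
  exact ContinuousAt.log h3.norm (norm_ne_zero_iff.mpr hne)

/-- the sum over the zeros -/
theorem Zpart {V : ℂ → ℂ} (hV : Differentiable ℂ V) (U1 U2 t : ℝ) (hU1 : 1 ≤ U1) :
    IntervalIntegrable (fun σ : ℝ => ((σ - 1/2 : ℝ) : ℂ) *
      ∑ s ∈ ZR U1 U2 σ, (mult riemannZeta s : ℂ) *
          V (((s.im - t : ℝ) : ℂ) - ((s.re - σ : ℝ) : ℂ) * Complex.I)) volume (1/2) (3/2) ∧
    (∫ σ in (1/2 : ℝ)..(3/2), ((σ - 1/2 : ℝ) : ℂ) *
      ∑ s ∈ ZR U1 U2 σ, (mult riemannZeta s : ℂ) *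
          V (((s.im - t : ℝ) : ℂ) - ((s.re - σ : ℝ) : ℂ) * Complex.I)).re =
      ∑ s ∈ ZR U1 U2 (1 / 2), (mult riemannZeta s : ℝ) *
          ∫ w in (0 : ℝ)..(s.re - 1 / 2), ((s.re - 1 / 2) - w) *
            (V (((s.im - t : ℝ) : ℂ) - (w : ℂ) * Complex.I)).re := by
  classical
  have hVc : Continuous V := hV.continuous
  have hre : ∀ s ∈ Zf riemannZeta U1 U2, s.re < 3 / 2 := by
    intro s hs
    have h1 := (H370.mem_Zf H370.good_zeta hU1).mp hs
    have := h1.2.1
    linarith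
  set g : ℂ → ℝ → ℂ := fun s σ => ((σ - 1/2 : ℝ) : ℂ) *
    V (((s.im - t : ℝ) : ℂ) - ((s.re - σ : ℝ) : ℂ) * Complex.I) with hg
  have hgc : ∀ s, Continuous (g s) := by
    intro s
    simp only [hg]
    fun_prop
  have e1 : (fun σ : ℝ => ((σ - 1/2 : ℝ) : ℂ) *
      ∑ s ∈ ZR U1 U2 σ, (mult riemannZeta s : ℂ) *
          V (((s.im - t : ℝ) : ℂ) - ((s.re - σ : ℝ) : ℂ) * Complex.I)) =
      fun σ : ℝ => ∑ s ∈ Zf riemannZeta U1 U2, (mult riemannZeta s : ℂ) *
        (if σ < s.re then g s σ else 0) := by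
    funext σ
    unfold ZR
    rw [Finset.sum_filter, Finset.mul_sum]
    refine Finset.sum_congr rfl fun s _ => ?_
    split_ifs with h
    · simp only [hg]; ring
    · simp
  rw [e1]
  have hint : ∀ s ∈ Zf riemannZeta U1 U2, IntervalIntegrable (fun σ : ℝ =>
      (mult riemannZeta s : ℂ) * (if σ < s.re then g s σ else 0)) volume (1/2) (3/2) := by
    intro s hs
    exact (zterm (g s) (hgc s) s.re (hre s hs)).1.const_mul _
  constructor
  · have := IntervalIntegrable.sum (Zf riemannZeta U1 U2) hint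
    refine this.congr ?_
    intro σ _
    simp only [Finset.sum_apply]
  · have e2 : ∫ σ in (1/2 : ℝ)..(3/2), ∑ s ∈ Zf riemannZeta U1 U2, (mult riemannZeta s : ℂ) *
        (if σ < s.re then g s σ else 0) = ∑ s ∈ Zf riemannZeta U1 U2, (mult riemannZeta s : ℂ) *
        (if 1/2 < s.re then ∫ σ in (1/2 : ℝ)..s.re, g s σ else 0) := by
      rw [intervalIntegral.integral_finsetSum hint]
      refine Finset.sum_congr rfl fun s hs => ?_
      rw [intervalIntegral.integral_const_mul, (zterm (g s) (hgc s) s.re (hre s hs)).2]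
    rw [e2, Complex.re_sum]
    unfold ZR
    rw [Finset.sum_filter]
    refine Finset.sum_congr rfl fun s _ => ?_
    split_ifs with h
    · have h3 := zsub V hVc s.re (s.im - t)
      rw [← h3]
      have e3 : (mult riemannZeta s : ℂ) = (((mult riemannZeta s : ℕ) : ℝ) : ℂ) := by push_cast; rfl
      rw [e3, Complex.re_ofReal_mul]
    · simp

theorem t_JF (hCT : S_CT) (hLI : S_LI) (hJP : S_JP)
    (hVH : ∀ (V : ℂ → ℂ) (M0 M : ℝ), KerOK V M0 M → ∀ n : ℕ, 1 ≤ n →
      ‖VH V (Real.log n)‖ ≤ 4 * M / n) : S_JF := by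
  classical
  obtain ⟨C, T0, hC, hT0, h⟩ := hCT
  obtain ⟨A, hA, hlog⟩ := log_zeta_bd
  set B := ∑' n, bb n with hB
  have hB0 : 0 ≤ B := tsum_nonneg bb_nonneg
  have hG0 := G0_nonneg
  refine ⟨C + A * G0 + 6 * G0 * B, T0, by positivity, hT0, fun T hT => ?_⟩
  obtain ⟨U1, U2, h1, h2, h3, h4, hmain⟩ := h T hT
  refine ⟨U1, U2, h1, h2, h3, h4, fun V M0 M hM0 hM hV t ht1 ht2 => ?_⟩
  have hT10 : 10 ≤ T := hT0.trans hT
  have hU1 : 1 ≤ U1 := by linarith
  have hU : U1 ≤ U2 := by linarith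
  have h12 : (1/2 : ℝ) ≤ 3/2 := by norm_num
  have hVc : Continuous V := hV.1.continuous
  set v : ℝ → ℂ := fun y => V ((y - t : ℝ) : ℂ) with hv
  have hvc : Continuous v := by simp only [hv]; fun_prop
  have hv0 : ∀ y, (v y).im = 0 := fun y => hV.2.1 (y - t)
  -- the formula for `J0` for almost all `y`
  have hJ : ∀ᵐ y : ℝ, y ∈ Set.Ioc U1 U2 →
      J0 y = Real.log ‖riemannZeta (pt (3 / 2) y)‖ -
        ∫ σ in (1/2 : ℝ)..(3/2), (σ - 1/2) * (LD (pt σ y)).re := by
    have hfin : ((Zf riemannZeta U1 U2).image Complex.im : Set ℝ).Finite := Finset.finite_toSet _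
    have hae : ∀ᵐ y : ℝ, y ∉ ((Zf riemannZeta U1 U2).image Complex.im : Set ℝ) :=
      hfin.countable.ae_notMem _
    filter_upwards [hae] with y hy hyU
    refine hJP y (hU1.trans hyU.1.le) fun σ hσ1 hσ2 hz => ?_
    have hre : (pt σ y).re = σ := by simp [pt]
    have him : (pt σ y).im = y := by simp [pt]
    rcases le_or_gt 1 σ with h5 | h5
    · exact riemannZeta_ne_zero_of_one_le_re (by rw [hre]; exact h5) hz
    · apply hy
      rw [Finset.mem_coe, Finset.mem_image]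
      refine ⟨pt σ y, ?_, him⟩
      rw [H370.mem_Zf H370.good_zeta hU1]
      refine ⟨?_, ?_, ?_, ?_, hz⟩
      · rw [hre]; linarith
      · rw [hre]; exact h5
      · rw [him]; exact hyU.1
      · rw [him]; exact hyU.2
  obtain ⟨hXi, hXe⟩ := fub (fun σ y => LD (pt σ y)) v hvc hv0 U1 U2 hU (hLI U1 U2 hU1) J0
    (fun y => Real.log ‖riemannZeta (pt (3 / 2) y)‖) a_cont hJ
  obtain ⟨hDi, hDe⟩ := Dpart (fun n => VH V (Real.log n)) t (4 * M) (M0 * G0) (by positivity)
    (fun n hn => hVH V M0 M hV n hn) (fun n => VH_bd hV _)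
  obtain ⟨hZi, hZe⟩ := Zpart hV.1 U1 U2 t hU1
  set X := ∫ σ in (1/2 : ℝ)..(3/2), ((σ - 1/2 : ℝ) : ℂ) * ∫ y in U1..U2, LD (pt σ y) * v y with hX
  set Dd := ∫ σ in (1/2 : ℝ)..(3/2), ((σ - 1/2 : ℝ) : ℂ) *
      ∑' n : ℕ, (ArithmeticFunction.vonMangoldt n : ℂ) * (n : ℂ) ^ (-((σ : ℂ) + (t : ℂ) * Complex.I)) *
        VH V (Real.log n) with hDd
  set Zz := ∫ σ in (1/2 : ℝ)..(3/2), ((σ - 1/2 : ℝ) : ℂ) *
      ∑ s ∈ ZR U1 U2 σ, (mult riemannZeta s : ℂ) *
          V (((s.im - t : ℝ) : ℂ) - ((s.re - σ : ℝ) : ℂ) * Complex.I) with hZz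
  have hkey : ‖X + Dd + 2 * Real.pi * Zz‖ ≤ C * M / T := by
    have e1 : X + Dd + 2 * Real.pi * Zz = ∫ σ in (1/2 : ℝ)..(3/2),
      (((σ - 1/2 : ℝ) : ℂ) * (∫ y in U1..U2, LD (pt σ y) * v y) + ((σ - 1/2 : ℝ) : ℂ) *
      (∑' n : ℕ, (ArithmeticFunction.vonMangoldt n : ℂ) *
        (n : ℂ) ^ (-((σ : ℂ) + (t : ℂ) * Complex.I)) * VH V (Real.log n)) +
      2 * Real.pi * (((σ - 1/2 : ℝ) : ℂ) *
      ∑ s ∈ ZR U1 U2 σ, (mult riemannZeta s : ℂ) *
          V (((s.im - t : ℝ) : ℂ) - ((s.re - σ : ℝ) : ℂ) * Complex.I))) := by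
      rw [intervalIntegral.integral_add (hXi.add hDi) (hZi.const_mul _),
        intervalIntegral.integral_add hXi hDi, intervalIntegral.integral_const_mul]
    rw [e1]
    have hfin : ((Zf riemannZeta U1 U2).image Complex.re ∪ {3/2} : Set ℝ).Finite := 
      (Finset.finite_toSet _).union (Set.finite_singleton _)
    have hae : ∀ᵐ σ : ℝ, σ ∉ ((Zf riemannZeta U1 U2).image Complex.re ∪ {3/2} : Set ℝ) :=
      hfin.countable.ae_notMem _
    have hle := intervalIntegral.norm_integral_le_of_norm_le_const_ae (a := (1/2 : ℝ)) (b := 3/2)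
      (C := C * M / T) (f := fun σ : ℝ => 
      (((σ - 1/2 : ℝ) : ℂ) * (∫ y in U1..U2, LD (pt σ y) * v y) + ((σ - 1/2 : ℝ) : ℂ) *
      (∑' n : ℕ, (ArithmeticFunction.vonMangoldt n : ℂ) *
        (n : ℂ) ^ (-((σ : ℂ) + (t : ℂ) * Complex.I)) * VH V (Real.log n)) +
      2 * Real.pi * (((σ - 1/2 : ℝ) : ℂ) *
      ∑ s ∈ ZR U1 U2 σ, (mult riemannZeta s : ℂ) *
          V (((s.im - t : ℝ) : ℂ) - ((s.re - σ : ℝ) : ℂ) * Complex.I)))) (by
        filter_upwards [hae] with σ hσ hσI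
        rw [Set.uIoc_of_le h12] at hσI
        have hσ2 : σ < 3/2 := by
          rcases lt_or_eq_of_le hσI.2 with h6 | h6
          · exact h6
          · exact absurd (Or.inr (by rw [h6]; rfl)) hσ
        have hσ3 : ∀ s ∈ Zf riemannZeta U1 U2, s.re ≠ σ := by
          intro s hs he
          apply hσ
          left
          rw [Finset.mem_coe, Finset.mem_image]
          exact ⟨s, hs, he⟩
        have h7 := hmain V M0 M hM0 hM hV t ht1 ht2 σ hσI.1.le hσ2 hσ3
        have e2 : (((σ - 1/2 : ℝ) : ℂ) * (∫ y in U1..U2, LD (pt σ y) * v y) + ((σ - 1/2 : ℝ) : ℂ) *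
          (∑' n : ℕ, (ArithmeticFunction.vonMangoldt n : ℂ) *
            (n : ℂ) ^ (-((σ : ℂ) + (t : ℂ) * Complex.I)) * VH V (Real.log n)) +
          2 * Real.pi * (((σ - 1/2 : ℝ) : ℂ) *
          ∑ s ∈ ZR U1 U2 σ, (mult riemannZeta s : ℂ) *
              V (((s.im - t : ℝ) : ℂ) - ((s.re - σ : ℝ) : ℂ) * Complex.I))) =
          ((σ - 1/2 : ℝ) : ℂ) * ((∫ y in U1..U2, LD (pt σ y) * V ((y - t : ℝ) : ℂ)) +
            (∑' n : ℕ, (ArithmeticFunction.vonMangoldt n : ℂ) * (n : ℂ) ^ (-(pt σ t)) *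
              VH V (Real.log n)) +
            2 * Real.pi * ∑ s ∈ ZR U1 U2 σ, (mult riemannZeta s : ℂ) *
              V (((s.im - t : ℝ) : ℂ) - ((s.re - σ : ℝ) : ℂ) * Complex.I)) := by
          simp only [hv, pt]
          ring
        rw [e2, norm_mul, Complex.norm_real, Real.norm_eq_abs, abs_of_nonneg (by linarith [hσI.1])]
        calc (σ - 1/2) * _ ≤ 1 * _ :=
              mul_le_mul_of_nonneg_right (by linarith) (norm_nonneg _)
          _ ≤ C * M / T := by rw [one_mul]; exact h7)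
    refine hle.trans (le_of_eq ?_)
    norm_num
  have hkre : |X.re + Dd.re + 2 * Real.pi * Zz.re| ≤ C * M / T := by
    have := (Complex.abs_re_le_norm _).trans hkey
    have e3 : (X + Dd + 2 * Real.pi * Zz).re = X.re + Dd.re + 2 * Real.pi * Zz.re := by
      rw [Complex.add_re, Complex.add_re]
      congr 1
      rw [show (2 * Real.pi * Zz : ℂ) = ((2 * Real.pi : ℝ) : ℂ) * Zz by push_cast; ring,
        Complex.re_ofReal_mul]
    rwa [e3] at this
  have hab := aint_bd hV (fun y => Real.log ‖riemannZeta (pt (3 / 2) y)‖) A hA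
    (fun y => hlog _ (by simp [pt])) U1 U2 t hU
  rw [hXe, ← hZe]
  set Q := ∫ y in U1..U2, Real.log ‖riemannZeta (pt (3 / 2) y)‖ * (v y).re with hQ
  set S1 := ∑' n : ℕ, ArithmeticFunction.vonMangoldt n / (Real.sqrt n * Real.log n ^ 2) *
        ((n : ℂ) ^ (-((t : ℂ) * Complex.I)) * VH V (Real.log n)).re with hS1
  have e9 : Q - X.re - S1 - 2 * Real.pi * Zz.re =
      Q + (Dd.re - S1) - (X.re + Dd.re + 2 * Real.pi * Zz.re) := by ring
  have hfinal : |Q - X.re - S1 - 2 * Real.pi * Zz.re| ≤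
      A * (M0 * G0) + 6 * (M0 * G0) * B + C * M / T := by
    rw [e9]
    refine (abs_sub _ _).trans ?_
    refine add_le_add ((abs_add_le _ _).trans (add_le_add hab hDe)) hkre
  refine hfinal.trans ?_
  have hT1 : 0 < T := by linarith
  have : 0 ≤ M / T := by positivity
  have e10 : C * M / T = C * (M / T) := by ring
  rw [e10]
  nlinarith [mul_nonneg hC.le hM0, mul_nonneg (mul_nonneg hA hG0) this,
    mul_nonneg (mul_nonneg hG0 hB0) this]

end

end Pool.Agent.Y813.OJ
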